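import Pool.Agent.Helper41.PS.Goals

/-!
Project PS (MP_74f661_nt), packet M1 (helper50): the sum over `h > L`.
-/

set_option autoImplicit false

open Finset

open scoped Classical

namespace Pool.Agent.Helper50.PS.M1

open Pool.Agent.Helper41.PS

theorem unif (hMA : StmtMA) (m q : ℕ) (hq : 1 ≤ q) (A : Finset ℕ)
    (hA : ∀ a ∈ A, Nat.Coprime a q) :
    ∃ c K : ℝ, 0 < c ∧ 1 ≤ K ∧ ∃ x0 : ℕ, ∀ a ∈ A, ∀ x L : ℕ, x0 ≤ x → K * Real.log x ≤ L →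
      L ≤ x → c * (x * (L : ℝ) ^ m) ≤ Real.log x ^ (m + 1) * MM m q x L a := by
  induction A using Finset.induction_on with
  | empty => exact ⟨1, 1, one_pos, le_rfl, 0, by simp⟩
  | insert a s ha ih =>
    obtain ⟨c, K, hc, hK, x0, h⟩ := ih (fun b hb => hA b (mem_insert_of_mem hb))
    obtain ⟨c', K', hc', hK', x0', h'⟩ := hMA m q a hq (hA a (mem_insert_self a s))
    refine ⟨min c c', max K K', lt_min hc hc', le_max_of_le_left hK, max x0 x0', ?_⟩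
    intro b hb x L hx hL hLx
    have hlog : 0 ≤ Real.log x := Real.log_natCast_nonneg x
    have hXL : (0 : ℝ) ≤ x * (L : ℝ) ^ m := by positivity
    rcases mem_insert.1 hb with rfl | hb
    · exact le_trans (mul_le_mul_of_nonneg_right (min_le_right _ _) hXL)
        (h' x L (le_trans (le_max_right _ _) hx)
          (le_trans (mul_le_mul_of_nonneg_right (le_max_right _ _) hlog) hL) hLx)
    · exact le_trans (mul_le_mul_of_nonneg_right (min_le_left _ _) hXL)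
        (h b hb x L (le_trans (le_max_left _ _) hx)
          (le_trans (mul_le_mul_of_nonneg_right (le_max_left _ _) hlog) hL) hLx)

theorem alg (H P D T S S0 G C L b κ : ℝ) (hD : 0 < D) (hP : 0 < P) (hH : 0 ≤ H) (hκ : 0 ≤ κ)
    (hG : 0 ≤ G) (h1 : H * P ^ 2 ≤ D * (P + 2 * T)) (hY : (4 + 4 * κ) * D ≤ H * P)
    (h2 : S0 ≤ κ * P + 2 * C * L * G) (h3 : T ≤ S0 + S) (h4 : b * G * D ≤ P ^ 2)
    (h5 : 16 * C * L ≤ H * b) : b / 8 * (H * G) ≤ S := by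
  obtain ⟨Q, hQ⟩ : ∃ Q, Q = P ^ 2 / D := ⟨_, rfl⟩
  have hQ1 : H * Q ≤ P + 2 * T := by
    rw [hQ, ← mul_div_assoc, div_le_iff₀ hD]
    linarith
  have hQ2 : (4 + 4 * κ) * P ≤ H * Q := by
    rw [hQ, ← mul_div_assoc, le_div_iff₀ hD]
    nlinarith [mul_le_mul_of_nonneg_right hY hP.le]
  have hQ3 : b * G ≤ Q := by
    rw [hQ, le_div_iff₀ hD]
    exact h4
  have hQ4 : H * (b * G) ≤ H * Q := mul_le_mul_of_nonneg_left hQ3 hH
  have hQ5 : 16 * C * L * G ≤ H * b * G := mul_le_mul_of_nonneg_right h5 hG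
  have hQ6 : H * b * G = H * (b * G) := by ring
  have hQ7 : b / 8 * (H * G) = H * (b * G) / 8 := by ring
  rw [hQ7]
  nlinarith

theorem t (hMA : StmtMA) (hLOW : StmtLOW) (hSM : StmtSM) (hMOM : StmtMOM) (hGU : StmtGU) :
    StmtM1 := by
  intro m q A hm hq hAne hA
  obtain ⟨c, K, hc, hK, x1, hM⟩ := unif hMA m q hq A hA
  obtain ⟨C, hC, x2, hMo⟩ := hMOM m A.card
  obtain ⟨k, hk⟩ : ∃ k, k = A.card := ⟨_, rfl⟩
  rw [← hk] at hMo ⊢
  have hk1 : 1 ≤ k := by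
    rw [hk]
    exact Finset.card_pos.2 hAne
  obtain ⟨b, hb⟩ : ∃ b : ℝ, b = (c ^ 2 / 2) ^ k := ⟨_, rfl⟩
  have hb0 : 0 < b := by
    rw [hb]
    positivity
  obtain ⟨κ, hκ⟩ : ∃ κ : ℝ, κ = (k : ℝ) * ((m : ℝ) + 1) ^ 2 := ⟨_, rfl⟩
  have hκ0 : 0 ≤ κ := by
    rw [hκ]
    positivity
  obtain ⟨C0, hC0⟩ : ∃ C0 : ℝ, C0 = max 1 (max ((4 + 4 * κ) * (2 / c) ^ k) (16 * C / b)) :=
    ⟨_, rfl⟩
  have hC01 : 1 ≤ C0 := by
    rw [hC0]
    exact le_max_left _ _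
  have hC02 : (4 + 4 * κ) * (2 / c) ^ k ≤ C0 := by
    rw [hC0]
    exact le_trans (le_max_left _ _) (le_max_right _ _)
  have hC03 : 16 * C / b ≤ C0 := by
    rw [hC0]
    exact le_trans (le_max_right _ _) (le_max_right _ _)
  refine ⟨C0, b / 8, hC01, by positivity, ?_⟩
  intro lam hlam0 hlam1
  refine ⟨max (max x1 x2) ⌈Real.exp ((K + 1) / lam)⌉₊, ?_⟩
  intro x H hx hH1 hH2
  have hx1 : x1 ≤ x := le_trans (le_trans (le_max_left _ _) (le_max_left _ _)) hx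
  have hx2 : x2 ≤ x := le_trans (le_trans (le_max_right _ _) (le_max_left _ _)) hx
  have hx3 : Real.exp ((K + 1) / lam) ≤ x := by
    refine le_trans (Nat.le_ceil _) ?_
    exact_mod_cast le_trans (le_max_right _ _) hx
  have hxpos : (0 : ℝ) < x := lt_of_lt_of_le (Real.exp_pos _) hx3
  obtain ⟨ℓ, hℓ⟩ : ∃ ℓ, ℓ = Real.log x := ⟨_, rfl⟩
  have hℓ1 : (K + 1) / lam ≤ ℓ := by
    rw [hℓ, Real.le_log_iff_exp_le hxpos]
    exact hx3
  have hℓ2 : K + 1 ≤ lam * ℓ := by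
    rw [div_le_iff₀ hlam0] at hℓ1
    linarith
  have hℓ3 : 1 ≤ ℓ := by
    have h1 : K + 1 ≤ (K + 1) / lam := by
      rw [le_div_iff₀ hlam0]
      nlinarith
    linarith
  rw [← hℓ] at hH1 ⊢
  obtain ⟨L, hL⟩ : ∃ L : ℕ, L = ⌊lam * ℓ ^ 2⌋₊ := ⟨_, rfl⟩
  rw [← hL]
  have hL1 : (L : ℝ) ≤ lam * ℓ ^ 2 := by
    rw [hL]
    exact Nat.floor_le (by positivity)
  have hL2 : lam * ℓ ^ 2 < L + 1 := by
    rw [hL]
    exact Nat.lt_floor_add_one _
  have hL3 : (L : ℝ) ≤ ℓ ^ 2 := by nlinarith [sq_nonneg ℓ]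
  have hL4 : K * ℓ ≤ L := by
    have h1 : (K + 1) * ℓ ≤ lam * ℓ ^ 2 := by nlinarith
    linarith
  have hpw : ℓ ^ 2 ≤ ℓ ^ ((m + 1) * k) := by
    refine pow_le_pow_right₀ hℓ3 ?_
    calc 2 = (1 + 1) * 1 := by norm_num
      _ ≤ (m + 1) * k := Nat.mul_le_mul (by omega) hk1
  have hH3 : C0 * ℓ ^ 2 ≤ H := le_trans (mul_le_mul_of_nonneg_left hpw (by linarith)) hH1
  have hH4 : ℓ ^ 2 ≤ H := by nlinarith [sq_nonneg ℓ]
  have hLH : L ≤ H := by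
    have : (L : ℝ) ≤ (H : ℝ) := hL3.trans hH4
    exact_mod_cast this
  have hLx : L ≤ x := hLH.trans hH2
  have hLr : (1 : ℝ) ≤ L := by nlinarith
  have hLn : 1 ≤ L := by exact_mod_cast hLr
  have hHn : 1 ≤ H := hLn.trans hLH
  obtain ⟨μ, hμ⟩ : ∃ μ : ℝ, μ = c * (x * (L : ℝ) ^ m) / ℓ ^ (m + 1) := ⟨_, rfl⟩
  have hℓp : (0 : ℝ) < ℓ ^ (m + 1) := by positivity
  have hμ0 : 0 < μ := by
    rw [hμ]
    have : (0 : ℝ) < L := by linarith
    positivity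
  have hMM : ∀ a ∈ A, μ ≤ MM m q x L a := by
    intro a ha
    have h1 := hM a ha x L hx1 (by rw [← hℓ]; exact hL4) hLx
    rw [← hℓ] at h1
    rw [hμ, div_le_iff₀ hℓp]
    linarith
  obtain ⟨P, hPdef⟩ : ∃ P, P = ∏ a ∈ A, MM m q x L a := ⟨_, rfl⟩
  have hPμ : μ ^ k ≤ P := by
    rw [hPdef, hk, ← Finset.prod_const]
    exact Finset.prod_le_prod (fun _ _ => hμ0.le) hMM
  have hP0 : 0 < P := lt_of_lt_of_le (pow_pos hμ0 k) hPμ
  have hLr0 : (0 : ℝ) < L := by linarith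
  have h1 := hLOW m q x L H A hHn hH2 hLn
  rw [Finset.prod_pow, ← hPdef, ← hk] at h1
  have h2 := hSM m q x L A
  rw [← hPdef, ← hk, ← hκ] at h2
  have h2' := hMo x L L hx2 hLn
  have hss : ∀ h, 0 ≤ ∏ a ∈ A, SS m q x L a h := fun h =>
    Finset.prod_nonneg fun a _ => (hGU m q x L a h 0).2.2.2.1
  have h3 : ∑ h ∈ Ico 1 H, ∏ a ∈ A, SS m q x L a h ≤
      ∑ h ∈ Icc 1 L, ∏ a ∈ A, SS m q x L a h + ∑ h ∈ Ioo L H, ∏ a ∈ A, SS m q x L a h := by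
    rw [← Finset.sum_union]
    · refine Finset.sum_le_sum_of_subset_of_nonneg ?_ fun h _ _ => hss h
      intro h hh
      simp only [mem_Ico, mem_union, mem_Icc, mem_Ioo] at hh ⊢
      omega
    · rw [Finset.disjoint_left]
      intro h hh hh'
      simp only [mem_Icc, mem_Ioo] at hh hh'
      omega
  have hg : gs m x L = x * (L : ℝ) ^ m / ℓ ^ (2 * m + 2) := by
    rw [hℓ]
    rfl
  refine alg H P ((2 * (x : ℝ) * (L : ℝ) ^ m) ^ k) (∑ h ∈ Ico 1 H, ∏ a ∈ A, SS m q x L a h) _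
    (∑ h ∈ Icc 1 L, ∏ a ∈ A, SS m q x L a h) (gs m x L ^ k) C L b κ (by positivity) hP0
    (by positivity) hκ0 ?_ h1 ?_ ?_ h3 ?_ ?_
  · rw [hg]
    positivity
  · have e1 : C0 * ℓ ^ ((m + 1) * k) * μ ^ k ≤ H * P :=
      mul_le_mul hH1 hPμ (by positivity) (by positivity)
    refine le_trans ?_ e1
    have e2 : C0 * ℓ ^ ((m + 1) * k) * μ ^ k = C0 * (c * (x * (L : ℝ) ^ m)) ^ k := by
      rw [pow_mul, mul_assoc, ← mul_pow, hμ]
      congr 2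
      field_simp
    rw [e2]
    have e3 : (c * (x * (L : ℝ) ^ m)) ^ k = (c / 2) ^ k * (2 * (x : ℝ) * (L : ℝ) ^ m) ^ k := by
      rw [← mul_pow]
      congr 1
      ring
    rw [e3, ← mul_assoc]
    refine mul_le_mul_of_nonneg_right ?_ (by positivity)
    have e4 : (2 / c) ^ k * (c / 2) ^ k = 1 := by
      rw [← mul_pow]
      have : (2 / c) * (c / 2) = 1 := by
        field_simp
      rw [this, one_pow]
    calc 4 + 4 * κ = (4 + 4 * κ) * (2 / c) ^ k * (c / 2) ^ k := by rw [mul_assoc, e4, mul_one]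
      _ ≤ C0 * (c / 2) ^ k := mul_le_mul_of_nonneg_right hC02 (by positivity)
  · refine h2.trans ?_
    refine add_le_add le_rfl (h2'.trans (le_of_eq ?_))
    ring
  · have e1 : (μ ^ k) ^ 2 ≤ P ^ 2 := pow_le_pow_left₀ (by positivity) hPμ 2
    refine le_trans (le_of_eq ?_) e1
    rw [hb, hg, ← mul_pow, ← mul_pow, ← pow_mul, mul_comm k 2, pow_mul]
    congr 1
    rw [hμ]
    have hℓ0 : ℓ ≠ 0 := by positivity
    field_simp
    ring
  · have e1 : 16 * C ≤ C0 * b := by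
      rwa [div_le_iff₀ hb0] at hC03
    calc 16 * C * (L : ℝ) ≤ C0 * b * ℓ ^ 2 :=
          mul_le_mul e1 hL3 (by positivity) (by positivity)
      _ = C0 * ℓ ^ 2 * b := by ring
      _ ≤ H * b := mul_le_mul_of_nonneg_right hH3 hb0.le

end Pool.Agent.Helper50.PS.M1
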